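import Pool.Agent.helper10.QT.SpecX

/-! # Row ADV of project AT: primitive forms with constant terms prime to 6 are admissible -/

set_option autoImplicit false

namespace Pool.Agent.AT

open Finset Pool.Agent.helper85.FC

theorem ADV_small (p : ℕ) (hp : p.Prime) (h6 : (p : ℤ) ∣ 6) (b : ℤ) (hb : IsCoprime (6 : ℤ) b) :
    ¬ (p : ℤ) ∣ b := by
  intro hd
  have hu : IsUnit (p : ℤ) := hb.isUnit_of_dvd' h6 hd
  have h1 := Int.isUnit_iff_natAbs_eq.1 hu
  rw [Int.natAbs_natCast] at h1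
  exact hp.one_lt.ne' h1

theorem ADV : ADV_stmt := by
  intro f hf p hp
  by_cases h5 : p < 5
  · refine ⟨0, fun i => ?_⟩
    have h6 : (p : ℤ) ∣ 6 := by
      have h2 := hp.two_le
      have h4 : p ≠ 4 := by
        rintro rfl
        exact absurd hp (by decide)
      have h23 : p = 2 ∨ p = 3 := by omega
      rcases h23 with rfl | rfl
      · exact ⟨3, by norm_num⟩
      · exact ⟨2, by norm_num⟩
    rw [Nat.cast_zero, mul_zero, zero_add]
    exact ADV_small p hp h6 _ (hf i).2.2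
  · by_contra hcon
    push Not at hcon
    choose g hg using hcon
    obtain ⟨x, y, hxy, hgxy⟩ :=
      Fintype.exists_ne_map_eq_of_card_lt (fun x : Fin 5 => g (x : ℕ)) (by simp)
    have hgxy' : g (x : ℕ) = g (y : ℕ) := hgxy
    have h1 := hg (x : ℕ)
    have h2 := hg (y : ℕ)
    rw [← hgxy'] at h2
    obtain ⟨i, hi⟩ : ∃ i, g (x : ℕ) = i := ⟨_, rfl⟩
    rw [hi] at h1 h2
    have h3 : (p : ℤ) ∣ ((f i).1 : ℤ) * (((x : ℕ) : ℤ) - ((y : ℕ) : ℤ)) := by
      have h := dvd_sub h1 h2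
      have e : ((f i).1 : ℤ) * ((x : ℕ) : ℤ) + (f i).2 - (((f i).1 : ℤ) * ((y : ℕ) : ℤ) + (f i).2) =
          ((f i).1 : ℤ) * (((x : ℕ) : ℤ) - ((y : ℕ) : ℤ)) := by ring
      rwa [e] at h
    have hpZ : Prime (p : ℤ) := Nat.prime_iff_prime_int.1 hp
    rcases hpZ.dvd_or_dvd h3 with h4 | h4
    · have h5' : (p : ℤ) ∣ (f i).2 := by
        have h6 : (p : ℤ) ∣ ((f i).1 : ℤ) * ((x : ℕ) : ℤ) := h4.mul_right _
        exact (dvd_add_right h6).1 h1
      have hu : IsUnit (p : ℤ) := (hf i).2.1.isUnit_of_dvd' h4 h5'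
      have h7 := Int.isUnit_iff_natAbs_eq.1 hu
      rw [Int.natAbs_natCast] at h7
      exact hp.one_lt.ne' h7
    · have hx := x.2
      have hy := y.2
      have hne : (x : ℕ) ≠ (y : ℕ) := fun h => hxy (Fin.ext h)
      have h8 : ((x : ℕ) : ℤ) - ((y : ℕ) : ℤ) = 0 := by
        refine Int.eq_zero_of_abs_lt_dvd h4 ?_
        rw [abs_lt]
        constructor <;> omega
      omega

end Pool.Agent.AT
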