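import Pool.Agent.helper10.QT.SpecY
import Pool.Agent.helper72.AT.PSY

/-!
# AT, row AP1: the ratio `1` is ample, and inverses of ample ratios are ample
-/

set_option autoImplicit false

namespace Pool.Agent.AT

open Finset Pool.Agent.helper85.FC

theorem AP1_true {c : ℤ} (hc : c ≠ 0) (h : Dif (2 * c)) : TrueCase 1 1 (2 * c) := by
  refine ⟨one_pos, one_pos, mul_ne_zero two_ne_zero hc, Nat.coprime_one_left _, ?_, ?_, ?_, ?_⟩
  · rw [Nat.cast_one]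
    exact isCoprime_one_left
  · rw [Nat.cast_one]
    exact isCoprime_one_left
  · rintro ⟨-, -, h3⟩
    exact (Int.not_even_iff_odd.2 h3) (even_two_mul c)
  · unfold Dif at h
    simpa using h

theorem AP1_neg {a b : ℕ} {c : ℤ} : TrueCase a b c ↔ TrueCase b a (-c) := by
  refine ⟨PSY_symm, fun h => ?_⟩
  have h1 := PSY_symm h
  rwa [neg_neg] at h1

theorem AP1_one (h : ∀ m : ℕ, 1 ≤ m → ∀ ε : ℝ, 0 < ε → ∃ M₀ : ℕ, ∀ M : ℕ, M₀ ≤ M → ∀ u : ℤ,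
    (1 / 3 - ε) * M ≤ ({c : ℤ | c ∈ Ioc u (u + M) ∧ c ≠ 0 ∧ Dif (2 * m * c)}.ncard : ℝ)) : AmpR 1 := by
  classical
  obtain ⟨M₀, hM₀⟩ := h 1 le_rfl (1 / 6) (by norm_num)
  refine ⟨1 / 12, by norm_num, fun X₀ => ?_⟩
  set M : ℕ := max X₀ M₀ with hM
  have hX₀ : X₀ ≤ M := le_max_left _ _
  have h1 := hM₀ M (le_max_right _ _) 0
  refine ⟨2 * M, by omega, ?_⟩
  have hsub : (fun c : ℤ => 2 * c) '' {c : ℤ | c ∈ Ioc (0 : ℤ) (0 + M) ∧ c ≠ 0 ∧ Dif (2 * (1 : ℕ) * c)} ⊆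
      (({c ∈ Icc (-((2 * M : ℕ) : ℤ)) ((2 * M : ℕ) : ℤ) | TrueCase (1 : ℚ).num.natAbs (1 : ℚ).den c} : Finset ℤ) : Set ℤ) := by
    rintro _ ⟨c, ⟨hc1, hc2, hc3⟩, rfl⟩
    rw [Finset.mem_coe, mem_filter, mem_Icc]
    rw [mem_Ioc] at hc1
    refine ⟨⟨?_, ?_⟩, ?_⟩
    · simp only
      push_cast
      omega
    · simp only
      push_cast
      omega
    · have e : (2 : ℤ) * ((1 : ℕ) : ℤ) * c = 2 * c := by push_cast; ring
      rw [e] at hc3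
      exact AP1_true hc2 hc3
  have h2 := Set.ncard_le_ncard hsub (Finset.finite_toSet _)
  rw [Set.ncard_image_of_injective _ (fun x y hxy => by simpa using hxy), Set.ncard_coe_finset] at h2
  have h3 : (({c : ℤ | c ∈ Ioc (0 : ℤ) (0 + M) ∧ c ≠ 0 ∧ Dif (2 * (1 : ℕ) * c)}.ncard : ℕ) : ℝ) ≤
      ((#{c ∈ Icc (-((2 * M : ℕ) : ℤ)) ((2 * M : ℕ) : ℤ) | TrueCase (1 : ℚ).num.natAbs (1 : ℚ).den c} : ℕ) : ℝ) := by
    exact_mod_cast h2
  refine le_trans ?_ h3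
  refine le_trans ?_ h1
  push_cast
  linarith

theorem AP1_inv (r : ℚ) (hr : 0 < r) (h : AmpR r) : AmpR r⁻¹ := by
  classical
  obtain ⟨δ, hδ, h1⟩ := h
  refine ⟨δ, hδ, fun X₀ => ?_⟩
  obtain ⟨X, hX, h2⟩ := h1 X₀
  refine ⟨X, hX, h2.trans (le_of_eq ?_)⟩
  have hnum : 0 < r.num := Rat.num_pos.2 hr
  have e1 : (r⁻¹).num.natAbs = r.den := by
    rw [Rat.num_inv, Int.sign_eq_one_of_pos hnum, one_mul, Int.natAbs_natCast]
  have e2 : (r⁻¹).den = r.num.natAbs := Rat.den_inv_of_ne_zero hr.ne'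
  rw [e1, e2]
  norm_cast
  refine card_bij (fun c _ => -c) ?_ ?_ ?_
  · intro c hc
    rw [mem_filter, mem_Icc] at hc ⊢
    exact ⟨⟨by omega, by omega⟩, PSY_symm hc.2⟩
  · intro c _ c' _ hcc
    exact neg_injective hcc
  · intro c hc
    rw [mem_filter, mem_Icc] at hc
    refine ⟨-c, ?_, neg_neg c⟩
    rw [mem_filter, mem_Icc]
    exact ⟨⟨by omega, by omega⟩, PSY_symm hc.2⟩

theorem AP1 : AP1_stmt := ⟨AP1_one, AP1_inv⟩

end Pool.Agent.AT
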